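import Pool.Agent.Helper90.TS.CStmts

/-! # UTOP: the topological argument -/

set_option autoImplicit false

namespace Pool.Agent.Helper90.TS

open FirstOrder Language

section utop

variable {L : FirstOrder.Language.{0, 0}} {C : Type} [L.Structure C]

theorem utop_inv0 (hCINV : ST_CINV) {ι : Type} {D : Set (ι → C)} (hD : Z0 L D) (g : AutG L C)
    (x : ι → C) : g • x ∈ D ↔ x ∈ D :=
  (hCINV L C ι ∅ D hD).1 g (by intro a ha; exact absurd ha (Set.notMem_empty a)) x

theorem utop_bd {S : ℕ → Set C} (hM : Monster L C S) {n : ℕ} (c : Fin n → C) :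
    ∃ N, ∀ i, c i ∈ S N := by
  choose N hN using fun i => hM.cover (c i)
  exact ⟨Finset.univ.sup N, fun i => hM.mono (Finset.le_sup (Finset.mem_univ i)) (hN i)⟩

theorem utop_sort {S : ℕ → Set C} (hM : Monster L C S) (n K : ℕ) :
    Z0 L {x : Fin n → C | ∀ j, x j ∈ S K} := by
  have h := hM.sortdef K
  have e : {x : Fin n → C | ∀ j, x j ∈ S K} =
      ⋂ j : Fin n, (fun v : Fin n → C => v ∘ (fun _ : Fin 1 => j)) ⁻¹'
        {x : Fin 1 → C | x 0 ∈ S K} := by
    ext x
    simp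
  unfold Z0
  rw [e]
  apply Set.definable_iInter_of_finite
  intro j
  exact Set.Definable.preimage_comp _ h

/-- parameters: one direction of `CPAR` -/
theorem utop_par (hCPAR : ST_CPAR) {ι : Type} [Finite ι] {A : Set C} {m : ℕ} {a : Fin m → C}
    {E : Set (Fin m ⊕ ι → C)} (ha : Set.range a ⊆ A) (hE : Z0 L E) :
    A.Definable L {x : ι → C | Sum.elim a x ∈ E} :=
  (hCPAR L C ι A _).2 ⟨m, a, E, ha, hE, rfl⟩

theorem utop_sec (hCPAR : ST_CPAR) {n : ℕ} {A : Set C} {R : Set (Fin n ⊕ Unit → C)}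
    (hR : Z0 L R) {v : C} (hv : v ∈ A) :
    A.Definable L {x : Fin n → C | Sum.elim x (fun _ : Unit => v) ∈ R} := by
  have hE : Z0 L ((fun w : Fin 1 ⊕ Fin n → C => w ∘
      (Sum.elim (fun j : Fin n => (Sum.inr j : Fin 1 ⊕ Fin n)) (fun _ : Unit => Sum.inl 0))) ⁻¹' R) :=
    Set.Definable.preimage_comp _ hR
  have h := utop_par hCPAR (A := A) (a := fun _ : Fin 1 => v)
    (by rintro _ ⟨_, rfl⟩; exact hv) hE
  have e : {x : Fin n → C | Sum.elim x (fun _ : Unit => v) ∈ R} =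
      {x : Fin n → C | Sum.elim (fun _ : Fin 1 => v) x ∈ ((fun w : Fin 1 ⊕ Fin n → C => w ∘
      (Sum.elim (fun j : Fin n => (Sum.inr j : Fin 1 ⊕ Fin n)) (fun _ : Unit => Sum.inl 0))) ⁻¹' R)} := by
    ext x
    have : (Sum.elim (fun _ : Fin 1 => v) x) ∘
      (Sum.elim (fun j : Fin n => (Sum.inr j : Fin 1 ⊕ Fin n)) (fun _ : Unit => Sum.inl 0)) =
        Sum.elim x (fun _ : Unit => v) := by
      funext z
      cases z <;> rfl
    show _ ↔ (Sum.elim (fun _ : Fin 1 => v) x) ∘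
      (Sum.elim (fun j : Fin n => (Sum.inr j : Fin 1 ⊕ Fin n)) (fun _ : Unit => Sum.inl 0)) ∈ R
    rw [this]
    rfl
  rw [e]
  exact h

theorem utop_swap {n m : ℕ} {E : Set (Fin m ⊕ Fin n → C)} (hE : Z0 L E) :
    Z0 L {w : Fin n ⊕ Fin m → C | w ∘ Sum.swap ∈ E} :=
  Set.Definable.preimage_comp (Sum.swap : Fin m ⊕ Fin n → Fin n ⊕ Fin m) hE

theorem utop_open {Q : Set C} {n : ℕ} {D : Set (Fin n → C)} (hD : Q.Definable L D) :
    IsOpen {q : Typ L Q n | D ∈ q.1} :=
  TopologicalSpace.isOpen_generateFrom_of_mem ⟨D, hD, rfl⟩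

theorem utop_gq {Q a : Set C} {f : C ≃[L] C} {g : AutG L C} (hfg : ∀ x, g • x = f x) :
    AutQ L Q a f ↔ GQ Q a g := by
  have h1 : tr g Q = f '' Q := by
    unfold tr
    exact Set.image_congr (fun x _ => hfg x)
  unfold AutQ GQ
  rw [h1]
  constructor
  · rintro ⟨h, h'⟩
    exact ⟨h, fun x hx => by rw [hfg]; exact h' x hx⟩
  · rintro ⟨h, h'⟩
    exact ⟨h, fun x hx => by rw [← hfg]; exact h' x hx⟩

/-- the type of `g • c` depends on the type of `c` only -/
theorem utop_tp (hCINV : ST_CINV) {Q a : Set C} {g : AutG L C} (hg : GQ Q a g) {n : ℕ}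
    {c c' : Fin n → C} (h : tp L Q c = tp L Q c') : tp L Q (g • c) = tp L Q (g • c') := by
  have hQ : tr g⁻¹ Q = Q := by
    have h1 := hg.1
    ext x
    rw [mem_tr, inv_inv]
    constructor
    · intro hx
      rw [← h1, mem_tr] at hx
      rwa [inv_smul_smul] at hx
    · intro hx
      rw [← h1, mem_tr, inv_smul_smul]
      exact hx
  ext D
  constructor
  · rintro ⟨hD, hx⟩
    have h2 := (hCINV L C (Fin n) Q D hD).2 g
    rw [hQ] at h2
    have h3 : {x | g • x ∈ D} ∈ tp L Q c := ⟨h2, hx⟩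
    rw [h] at h3
    exact ⟨hD, h3.2⟩
  · rintro ⟨hD, hx⟩
    have h2 := (hCINV L C (Fin n) Q D hD).2 g
    rw [hQ] at h2
    have h3 : {x | g • x ∈ D} ∈ tp L Q c' := ⟨h2, hx⟩
    rw [← h] at h3
    exact ⟨hD, h3.2⟩

theorem utop_orb (hCINV : ST_CINV) {Q a : Set C} {n : ℕ} {c : Fin n → C} {p : Typ L Q n}
    (hp : p.1 = tp L Q c) (q : Typ L Q n) :
    q ∈ Orb L a p ↔ ∃ g : AutG L C, GQ Q a g ∧ q.1 = tp L Q (g • c) := by
  constructor
  · rintro ⟨f, hf, c1, hc1, hq⟩
    obtain ⟨g, hg⟩ := AutG.ofEquiv f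
    have hG : GQ Q a g := (utop_gq hg).1 hf
    refine ⟨g, hG, ?_⟩
    have e : f ∘ c1 = g • c1 := by
      funext i
      exact (hg (c1 i)).symm
    rw [hq, e]
    exact utop_tp hCINV hG (hc1.symm.trans hp)
  · rintro ⟨g, hG, hq⟩
    obtain ⟨f, hf⟩ := AutG.toEquiv g
    have hfg : ∀ x, g • x = f x := fun x => (hf x).symm
    refine ⟨f, (utop_gq hfg).2 hG, c, hp, ?_⟩
    have e : f ∘ c = g • c := by
      funext i
      exact hf (c i)
    rw [hq, e]

end utop

theorem st_UTOP (hCINV : ST_CINV) (hCPAR : ST_CPAR) (hCINVD : ST_CINVD) (hCTYPE : ST_CTYPE)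
    (hCTV : ST_CTV) (hRHO : ST_RHO) (hUMOD : ST_UMOD) (hUU1 : ST_UU1) : ST_UTOP := by
  intro L C _ T Q a N hN hQ haQ hafin n c d hc h1 h2 h3 p hp
  have hM := T.hM
  obtain ⟨-, hU2, hU3, -⟩ := hUMOD L C T N hN
  obtain ⟨hUU, -, -, -⟩ := hUU1 L C T
  have hQN : Q ⊆ (N : Set C) := by
    rw [← hQ]
    exact Set.inter_subset_left
  have hQU : Q ⊆ T.U0 := by
    rw [← hQ]
    exact Set.inter_subset_right
  have hQc : Q.Countable := hN.mono hQN
  obtain ⟨K, hK⟩ := utop_bd hM c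
  have hKdef := utop_sort hM n K
  choose R hR0 hR using fun i : ℕ => hRHO L C T.S T.hM (Fin n) c (d i : C) (by
    intro g hg
    exact congrArg Subtype.val (h1 g hg i))
  have hdN : ∀ i, (d i : C) ∈ N := by
    intro i
    have hd : (N : Set C).Definable L {v : Unit → C | Sum.elim c v ∈ R i} :=
      utop_par hCPAR (by rintro _ ⟨j, rfl⟩; exact hc j) (hR0 i)
    have hne : {v : Unit → C | Sum.elim c v ∈ R i}.Nonempty := by
      refine ⟨fun _ => (d i : C), ?_⟩
      have := (hR i 1 (fun _ => (d i : C))).2 (by rw [one_smul])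
      rwa [one_smul] at this
    obtain ⟨x, hx, hxN⟩ := hCTV L C Unit N _ hd hne
    have hx' : Sum.elim ((1 : AutG L C) • c) x ∈ R i := by
      rw [one_smul]
      exact hx
    have := (hR i 1 x).1 hx'
    rw [one_smul] at this
    have h4 := hxN ()
    rw [this] at h4
    exact h4
  have hdcl : ∀ e : C, e ∈ N → e ∈ T.UU → ∃ (m : ℕ) (u : Fin m → C), (∀ i, u i ∈ Q) ∧
      ∀ g : AutG L C, g • u = u → g • e = e := by
    intro e he heU
    obtain ⟨m, u, hu, hg⟩ := hU3 e he heU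
    refine ⟨m, u, fun i => ?_, hg⟩
    rw [← hQ]
    exact hu i
  -- images of `d i` under `Aut(Q)` are in `N`
  have hgd : ∀ g : AutG L C, GQ Q a g → ∀ i, (g • (d i : C)) ∈ N := by
    intro g hg i
    obtain ⟨m, u, hu, hfix⟩ := hdcl _ (hdN i) (d i).2
    have hgu : ∀ j, (g • u) j ∈ N := by
      intro j
      apply hQN
      rw [← hg.1]
      exact ⟨u j, hu j, rfl⟩
    apply hU2 m (g • u) (g • (d i : C)) hgu
    apply Set.Finite.subset (Set.finite_singleton (g • (d i : C)))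
    rintro e' ⟨k, hk, rfl⟩
    have h4 : (g⁻¹ * k * g) • u = u := by
      rw [mul_smul, mul_smul, hk, inv_smul_smul]
    have h5 := hfix _ h4
    rw [mul_smul, mul_smul, inv_smul_eq_iff] at h5
    exact h5
  -- the sets
  have hB : ∀ (i : ℕ) (v : C), v ∈ N → v ∈ T.UU →
      Q.Definable L ({x : Fin n → C | ∀ j, x j ∈ T.S K} ∩
        {x : Fin n → C | Sum.elim x (fun _ : Unit => v) ∈ R i}) := by
    intro i v hv hvU
    apply hCINVD L C T.S T.hM (Fin n) Q hQc
    · apply Set.Definable.inter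
      · exact Set.Definable.mono hKdef (Set.empty_subset _)
      · exact utop_sec hCPAR (hR0 i) (Set.mem_univ v)
    · exact ⟨K, fun x hx j => hx.1 j⟩
    · intro g hg x hx
      obtain ⟨m, u, hu, hfix⟩ := hdcl v hv hvU
      have hgv : g • v = v := hfix g (by
        funext j
        exact hg (u j) (hu j))
      refine ⟨(utop_inv0 hCINV hKdef g x).2 hx.1, ?_⟩
      have h4 := (utop_inv0 hCINV (hR0 i) g (Sum.elim x (fun _ : Unit => v))).2 hx.2
      have e : g • (Sum.elim x (fun _ : Unit => v)) = Sum.elim (g • x) (fun _ : Unit => v) := by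
        funext z
        cases z with
        | inl z => rfl
        | inr z => exact hgv
      rw [e] at h4
      exact h4
  set O : ℕ → Set (Typ L Q n) := fun i => {q | ∃ v : C, v ∈ N ∧ v ∈ T.UU ∧
    ({x : Fin n → C | ∀ j, x j ∈ T.S K} ∩
        {x : Fin n → C | Sum.elim x (fun _ : Unit => v) ∈ R i}) ∈ q.1} with hOdef
  have hO : ∀ i, IsOpen (O i) := by
    intro i
    have e : O i = ⋃ v : {v : C // v ∈ N ∧ v ∈ T.UU}, {q : Typ L Q n |
        ({x : Fin n → C | ∀ j, x j ∈ T.S K} ∩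
        {x : Fin n → C | Sum.elim x (fun _ : Unit => v.1) ∈ R i}) ∈ q.1} := by
      ext q
      rw [Set.mem_iUnion]
      constructor
      · rintro ⟨v, hv, hvU, h⟩
        exact ⟨⟨v, hv, hvU⟩, h⟩
      · rintro ⟨⟨v, hv, hvU⟩, h⟩
        exact ⟨v, hv, hvU, h⟩
    rw [e]
    apply isOpen_iUnion
    rintro ⟨v, hv, hvU⟩
    exact utop_open (hB i v hv hvU)
  have hmem : ∀ (g : AutG L C) (i : ℕ) (v : C), g • c ∈ ({x : Fin n → C | ∀ j, x j ∈ T.S K} ∩
        {x : Fin n → C | Sum.elim x (fun _ : Unit => v) ∈ R i}) ↔ v = g • (d i : C) := by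
    intro g i v
    constructor
    · rintro ⟨-, h⟩
      have := (hR i g (fun _ => v)).1 h
      exact congrFun this ()
    · intro h
      refine ⟨(utop_inv0 hCINV hKdef g c).2 hK, ?_⟩
      apply (hR i g (fun _ => v)).2
      rw [h]
  have hOrbO : ∀ i, Orb L a p ⊆ O i := by
    intro i q hq
    obtain ⟨g, hg, hqg⟩ := (utop_orb hCINV hp q).1 hq
    have hv : g • (d i : C) ∈ N := hgd g hg i
    have hvU : g • (d i : C) ∈ T.UU := T.UU.smul_mem g (d i).2
    refine ⟨g • (d i : C), hv, hvU, ?_⟩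
    rw [hqg]
    exact ⟨hB i _ hv hvU, (hmem g i _).2 rfl⟩
  have key : ∀ q ∈ closure (Orb L a p), (∀ i, q ∈ O i) → q ∈ Orb L a p := by
    intro q hqcl hqO
    obtain ⟨c', hc'⟩ := q.2
    -- `c'` is a conjugate of `c`
    obtain ⟨g, -, hgc⟩ := hCTYPE L C T.S T.hM (Fin n) ∅ Set.countable_empty c c' (by
      intro D hD hcD
      by_contra hcon
      have hDc : Q.Definable L Dᶜ := (Set.Definable.mono hD (Set.empty_subset _)).compl
      have hopen := utop_open (n := n) hDc
      have hq : q ∈ {q : Typ L Q n | Dᶜ ∈ q.1} := by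
        show Dᶜ ∈ q.1
        rw [hc']
        exact ⟨hDc, hcon⟩
      obtain ⟨r, hr, hrO⟩ := mem_closure_iff.1 hqcl _ hopen hq
      obtain ⟨g, hg, hrg⟩ := (utop_orb hCINV hp r).1 hrO
      have hr' : Dᶜ ∈ r.1 := hr
      rw [hrg] at hr'
      exact hr'.2 ((utop_inv0 hCINV hD g c).2 hcD))
    have hqg : q.1 = tp L Q (g • c) := by rw [hc', hgc]
    have hgN : ∀ i, g • (d i : C) ∈ N ∧ g • (d i : C) ∈ T.UU := by
      intro i
      obtain ⟨v, hv, hvU, hvq⟩ := hqO i
      rw [hqg] at hvq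
      have := (hmem g i v).1 hvq.2
      rw [this] at hv hvU
      exact ⟨hv, hvU⟩
    obtain ⟨f, hf, hfd⟩ := h3 (fun i => g • d i) (by
      intro m
      have hopen : IsOpen (⋂ i ∈ Finset.range m, {q : Typ L Q n |
          ({x : Fin n → C | ∀ j, x j ∈ T.S K} ∩
          {x : Fin n → C | Sum.elim x (fun _ : Unit => g • (d i : C)) ∈ R i}) ∈ q.1}) := by
        apply isOpen_biInter_finset
        intro i _
        exact utop_open (hB i _ (hgN i).1 (hgN i).2)
      have hq : q ∈ (⋂ i ∈ Finset.range m, {q : Typ L Q n |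
          ({x : Fin n → C | ∀ j, x j ∈ T.S K} ∩
          {x : Fin n → C | Sum.elim x (fun _ : Unit => g • (d i : C)) ∈ R i}) ∈ q.1}) := by
        rw [Set.mem_iInter₂]
        intro i _
        show _ ∈ q.1
        rw [hqg]
        exact ⟨hB i _ (hgN i).1 (hgN i).2, (hmem g i _).2 rfl⟩
      obtain ⟨r, hr, hrO⟩ := mem_closure_iff.1 hqcl _ hopen hq
      obtain ⟨f, hf, hrf⟩ := (utop_orb hCINV hp r).1 hrO
      refine ⟨f, hf, fun i hi => ?_⟩
      rw [Set.mem_iInter₂] at hr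
      have h4 := hr i (Finset.mem_range.2 hi)
      have h5 : ({x : Fin n → C | ∀ j, x j ∈ T.S K} ∩
          {x : Fin n → C | Sum.elim x (fun _ : Unit => g • (d i : C)) ∈ R i}) ∈ r.1 := h4
      rw [hrf] at h5
      have h6 := (hmem f i _).1 h5.2
      apply Subtype.ext
      exact h6.symm)
    rw [utop_orb hCINV hp]
    refine ⟨f, hf, ?_⟩
    rw [hqg]
    -- `g⁻¹ f` fixes `d`
    have hsame : SameTr T c (g⁻¹ * f) := h2 (g⁻¹ * f) (by
      intro i
      rw [mul_smul, hfd i, inv_smul_smul])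
    have hiff : ∀ D : Set (Fin n → C), Q.Definable L D → (g • c ∈ D ↔ f • c ∈ D) := by
      intro D hD
      obtain ⟨m, u, E, hu, hE, rfl⟩ := (hCPAR L C (Fin n) Q D).1 hD
      have hE' := utop_swap hE
      have hsw : ∀ x : Fin n → C, Sum.elim u x ∈ E ↔
          Sum.elim x u ∈ {w : Fin n ⊕ Fin m → C | w ∘ Sum.swap ∈ E} := by
        intro x
        have e : (Sum.elim x u : Fin n ⊕ Fin m → C) ∘ Sum.swap = Sum.elim u x := by
          funext z
          cases z <;> rfl
        show _ ↔ (Sum.elim x u : Fin n ⊕ Fin m → C) ∘ Sum.swap ∈ E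
        rw [e]
      show Sum.elim u (g • c) ∈ E ↔ Sum.elim u (f • c) ∈ E
      rw [hsw, hsw]
      have hu' : ∀ j, (g⁻¹ • u) j ∈ T.UU := by
        intro j
        exact T.UU.smul_mem g⁻¹ (hUU (hQU (hu ⟨j, rfl⟩)))
      have h4 := hsame m _ (g⁻¹ • u) hE' hu'
      have h5 := utop_inv0 hCINV hE' g (Sum.elim ((g⁻¹ * f) • c) (g⁻¹ • u))
      have h6 := utop_inv0 hCINV hE' g (Sum.elim c (g⁻¹ • u))
      have e5 : g • (Sum.elim ((g⁻¹ * f) • c) (g⁻¹ • u) : Fin n ⊕ Fin m → C) =
          Sum.elim (f • c) u := by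
        funext z
        cases z with
        | inl z =>
          show g • ((g⁻¹ * f) • c z) = f • c z
          rw [mul_smul, smul_inv_smul]
        | inr z =>
          show g • (g⁻¹ • u z) = u z
          rw [smul_inv_smul]
      have e6 : g • (Sum.elim c (g⁻¹ • u) : Fin n ⊕ Fin m → C) = Sum.elim (g • c) u := by
        funext z
        cases z with
        | inl z => rfl
        | inr z =>
          show g • (g⁻¹ • u z) = u z
          rw [smul_inv_smul]
      rw [e5] at h5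
      rw [e6] at h6
      rw [h5, h6]
      exact h4.symm
    ext D
    constructor
    · rintro ⟨hD, hx⟩
      exact ⟨hD, (hiff D hD).1 hx⟩
    · rintro ⟨hD, hx⟩
      exact ⟨hD, (hiff D hD).2 hx⟩
  unfold TauBased
  have hres : (⋂ i, (fun x : closure (Orb L a p) => (x : Typ L Q n)) ⁻¹' (O i)) ∈
      residual (closure (Orb L a p)) := by
    rw [countable_iInter_mem]
    intro i
    apply residual_of_dense_open
    · exact (hO i).preimage continuous_subtype_val
    · apply Dense.mono (Set.preimage_mono (hOrbO i))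
      rw [Subtype.dense_iff]
      have e : (fun x : closure (Orb L a p) => (x : Typ L Q n)) ''
          ((fun x : closure (Orb L a p) => (x : Typ L Q n)) ⁻¹' (Orb L a p)) = Orb L a p := by
        ext q
        constructor
        · rintro ⟨x, hx, rfl⟩
          exact hx
        · intro hq
          exact ⟨⟨q, subset_closure hq⟩, hq, rfl⟩
      rw [e]
  exact Filter.mem_of_superset hres (fun x hx => key x x.2 (fun i => Set.mem_iInter.1 hx i))

end Pool.Agent.Helper90.TS
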